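import Pool.Agent.H89.RT.Tz
import Pool.Agent.H41.TW.Crv1

/-!
# [H39 PN Crv] THE PENCIL (MP_e49dc9_ag): sections of multiples of an isotropic prime divisor on itself

`S` a prime divisor with `S . S = 0`.
* `crv_z1`: as `crv_z` (H89/RT/Tz.lean) with `h⁰(O_C) = 1`.
* `sec_low`: `h⁰(S, r S | S) ≥ l(S) - 1`; and `≥ l(S)` if for the curve `C` the line bundle `(H + r S) | C` is nonspecial.
-/

set_option autoImplicit false

namespace Pool.Agent.H39.PN

open Pool.Agent.H54.RV Pool.Agent.H83.TU Pool.Agent.H83.TK Pool.Agent.H20.TD Pool.Agent.H20.TP Pool.Agent.H41.TK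
open Pool.Agent.H24.VP (RR chS)

variable {k K : Type} [Field k] [Field K] [Algebra k K] {X : Mod k K}
  {T : Cart X → Cart X → Cart X → ℝ} {l : Cart X → ℝ} {c : ℝ} {z : X.P} {S A : Cart X}

/-- two linear functions which agree for large `n` -/
private theorem lin_eq' {a b a' b' : ℝ} {N : ℕ} (h : ∀ n : ℕ, N ≤ n → a + n * b = a' + n * b') :
    a = a' ∧ b = b' := by
  have h1 := h N le_rfl
  have h2 := h (N + 1) (Nat.le_succ N)
  push_cast at h2
  have h3 : b = b' := by linarith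
  refine ⟨?_, h3⟩
  rw [h3] at h1
  linarith

/-- the difference of `chS` along `A ^ m` -/
theorem chS_d (hr : RR T l c) (S A W : Cart X) (m : ℕ) :
    chS T l S W - chS T l S (W * (A ^ m)⁻¹) =
      m * T W A S - (m ^ 2 * T A A S + m * T A S S) / 2 := by
  unfold chS
  simp only [hr.tri.add, hr.tri.add2, hr.tri.inv, hr.tri.inv2, hr.tri.pow, hr.tri.pow2]
  rw [hr.tri.s12 A W S]
  ring

/-- the generic curve in the linear system of `A ^ m` on the surface `z` -/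
theorem crv_z1 [CharZero k] [IsAlgClosed k] [T0Space X.P] (h : Hyp X) (hr : RR T l c)
    (htr : Algebra.trdeg k (X.kap z) = 2) (hS : SPr X z S) (hA : Ample A) :
    ∃ (m : ℕ) (k₂ K₂ : Type) (_ : Field k₂) (_ : Field K₂) (_ : Algebra k₂ K₂) (_ : CharZero k₂)
      (C : Mod k₂ K₂) (φ : Cart X →* Cart C), 1 ≤ m ∧ Crv C ∧ (∀ D, Ample D → Ample (φ D)) ∧
        (∀ W : Cart X, hz h.var z W ≤ hz h.var z (W * (A ^ m)⁻¹) + h0 (φ W) 1) ∧
        (∀ W : Cart X, (dg (φ W) : ℝ) = m * T W A S) ∧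
        ((Pool.Agent.H41.TK.chi C : ℤ) : ℝ) = -((m ^ 2 * T A A S + m * T A S S) / 2) ∧ h0 (1 : Cart C) 1 = 1 := by
  obtain ⟨m, k₂, K₂, i1, i2, i3, i4, C, φ, hm, hC, hφ, hle, heq, hone⟩ :=
    Pool.Agent.H41.TW.exists_curve1 h.var z htr hA
  obtain ⟨e, he⟩ : ∃ e : ℝ, e = (Pool.Agent.H41.TK.chi C : ℤ) := ⟨_, rfl⟩
  have hm1 : (1 : ℝ) ≤ m := by exact_mod_cast hm
  have hdS : 0 < dg (φ A) := dg_ample hC _ (hφ A hA)
  have key : ∀ W : Cart X, m * T W A S - (m ^ 2 * T A A S + m * T A S S) / 2 = (dg (φ W) : ℝ) + e ∧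
      m * T A A S = (dg (φ A) : ℝ) := by
    intro W
    obtain ⟨n1, h1⟩ := ev_srf h hr hS W A hA
    obtain ⟨n2, h2⟩ := ev_srf h hr hS (W * (A ^ m)⁻¹) A hA
    obtain ⟨n3, h3⟩ := heq W A hA
    obtain ⟨n4, h4⟩ : ∃ n4 : ℕ, ∀ n : ℕ, n4 ≤ n →
        - 2 * Pool.Agent.H41.TK.chi C < dg (φ W) + n * dg (φ A) := by
      refine ⟨(- 2 * Pool.Agent.H41.TK.chi C - dg (φ W) + 1).toNat, fun n hn => ?_⟩
      have h5 : (- 2 * Pool.Agent.H41.TK.chi C - dg (φ W) + 1) ≤ n := Int.toNat_le.1 hn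
      have h6 : (n : ℤ) * 1 ≤ n * dg (φ A) :=
        mul_le_mul_of_nonneg_left (by omega) (Int.natCast_nonneg _)
      omega
    refine lin_eq' (N := max (max n1 n2) (max n3 n4)) fun n hn => ?_
    have a1 := h1 n (le_trans ((le_max_left _ _).trans (le_max_left _ _)) hn)
    have a2 := h2 n (le_trans ((le_max_right _ _).trans (le_max_left _ _)) hn)
    have a3 := h3 n (le_trans ((le_max_left _ _).trans (le_max_right _ _)) hn)
    have a4 := h4 n (le_trans ((le_max_right _ _).trans (le_max_right _ _)) hn)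
    have a5 : dg (φ (W * A ^ n)) = dg (φ W) + n * dg (φ A) := by
      rw [map_mul, map_pow, dg_mul hC, dg_pow hC]
    have a6 := h0_eq hC (φ (W * A ^ n)) (by rw [a5]; exact a4)
    rw [a5] at a6
    have a7 : (h0 (φ (W * A ^ n)) 1 : ℝ) = dg (φ W) + n * dg (φ A) + e := by
      rw [he]
      exact_mod_cast a6
    have a8 : (hz h.var z (W * A ^ n) : ℝ) =
        hz h.var z (W * (A ^ m)⁻¹ * A ^ n) + h0 (φ (W * A ^ n)) 1 := by
      rw [mul_right_comm W]
      unfold hz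
      exact_mod_cast a3
    simp only at a1 a2
    rw [a1, a2, a7, mul_right_comm W] at a8
    have a9 := chS_d hr S A (W * A ^ n) m
    rw [hr.tri.add, hr.tri.pow] at a9
    linarith
  obtain ⟨k1, k2⟩ := key 1
  have k0 : (dg (φ 1) : ℝ) = 0 := by
    rw [map_one, dg_one]
    norm_num
  rw [k0, hr.tri.one] at k1
  have k4 : e = -((m ^ 2 * T A A S + m * T A S S) / 2) := by linarith
  refine ⟨m, k₂, K₂, i1, i2, i3, i4, C, φ, hm, hC, hφ, hle, fun W => ?_, ?_, hone⟩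
  · have h1 := (key W).1
    rw [k4] at h1
    linarith
  · rw [← he]
    exact k4

/-- `h⁰(S, r S | S) ≥ l(S) - 1` -/
theorem sec_low [CharZero k] [IsAlgClosed k] [T0Space X.P] (h : Hyp X) (hr : RR T l c)
    (htr : Algebra.trdeg k (X.kap z) = 2) (hS : SPr X z S) (hSS : ∀ U, T S S U = 0) (r : ℕ) :
    l S - 1 ≤ hz h.var z (S ^ r) := by
  obtain ⟨A, hA⟩ := h.amp
  obtain ⟨m, k₂, K₂, i1, i2, i3, i4, C, φ, hm, hC, hφ, hle, hdg, hch, hone⟩ := crv_z1 h hr htr hS hA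
  have ht := hr.tri
  have hm1 : (1 : ℝ) ≤ m := by exact_mod_cast hm
  have hT : 0 < T A A S := pos_srf h hr htr hS hA hA
  have e1 : T A S S = 0 := by rw [ht.s12, ht.s23, hSS]
  have e2 : T S A S = 0 := by rw [ht.s12, e1]
  obtain ⟨W, hW⟩ : ∃ W, W = S ^ r * A ^ m := ⟨_, rfl⟩
  have hWA : T W A S = m * T A A S := by
    rw [hW, ht.add, ht.pow, ht.pow, e2, mul_zero, zero_add]
  have h1 := hle W
  have e3 : W * (A ^ m)⁻¹ = S ^ r := by rw [hW, mul_inv_cancel_right]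
  rw [e3] at h1
  have h2 := Pool.Agent.H89.RT.tz h hr htr hS hA W (by rw [e1, hWA]; positivity)
  -- the curve
  have hd : (dg (φ W) : ℝ) = m ^ 2 * T A A S := by rw [hdg, hWA]; ring
  have hch' : ((Pool.Agent.H41.TK.chi C : ℤ) : ℝ) = -(m ^ 2 * T A A S / 2) := by rw [hch, e1]; ring
  have h3 : (h0 (φ W) 1 : ℝ) ≤ m ^ 2 * T A A S / 2 + 1 := by
    have hrr := rr hC (φ W)
    by_cases hh0 : hh (φ W) = 0
    · rw [hh0] at hrr
      have h4 : (h0 (φ W) 1 : ℝ) - (0 : ℕ) = dg (φ W) + ((Pool.Agent.H41.TK.chi C : ℤ) : ℝ) := by exact_mod_cast hrr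
      rw [hd, hch'] at h4
      push_cast at h4
      linarith
    · have h4 := h0_le_hh_one hC (φ W) hh0
      have h5 : ((Pool.Agent.H41.TK.chi C : ℤ) : ℝ) = 1 - (hh (1 : Cart C) : ℝ) := by
        unfold Pool.Agent.H41.TK.chi
        rw [hone]
        push_cast
        ring
      have h6 : (h0 (φ W) 1 : ℝ) ≤ hh (1 : Cart C) := by exact_mod_cast h4
      rw [hch'] at h5
      linarith
  have h4 := chS_d hr S A W m
  rw [e3, hWA, e1] at h4
  have h5 : chS T l S (S ^ r) = l S := by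
    unfold chS
    simp only [ht.pow, ht.pow2, hSS]
    ring
  have h6 : (hz h.var z W : ℝ) ≤ hz h.var z (S ^ r) + h0 (φ W) 1 := by exact_mod_cast h1
  rw [h5] at h4
  nlinarith

end Pool.Agent.H39.PN
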